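import Pool.Agent.Q266.DS6

/-!
# `DSOME(50n+21) ≡ 0 (mod 8)` and `DSOME(100n+71) ≡ 0 (mod 16)`
-/

set_option autoImplicit false

namespace Pool.Agent.Results.MP_496c03_nt.Dsome

/-- the odd parts of a partition with sign `+`, the even parts with sign `-` -/
def w {m : ℕ} (p : Nat.Partition m) : ℤ :=
  (p.parts.map fun i : ℕ => if Odd i then (i : ℤ) else -(i : ℤ)).sum

/-- `DSOME(m)`, the sum over the partitions of `m` into distinct parts -/
def DSOME (m : ℕ) : ℤ := ∑ p ∈ Nat.Partition.distincts m, w p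

end Pool.Agent.Results.MP_496c03_nt.Dsome

namespace Q266.DS.EC

open Q279.QS PowerSeries Pool.Agent.Results.MP_496c03_nt.Dsome

theorem prod_du {ι : Type*} (s : Finset ι) (f : ι → ℤ) :
    ∏ i ∈ s, du 1 (f i) = du 1 (∑ i ∈ s, f i) := by
  classical
  induction s using Finset.induction_on with
  | empty => simp [du_one]
  | insert a s ha ih =>
    rw [Finset.prod_insert ha, Finset.sum_insert ha, ih, du_mul]
    congr 1 <;> ring

theorem prod_wd {m : ℕ} (p : Nat.Partition m) (hp : p.parts.Nodup) :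
    p.parts.toFinsupp.prod wd = du 1 (w p) := by
  classical
  unfold Finsupp.prod
  rw [Multiset.toFinsupp_support]
  have h1 : ∀ i ∈ p.parts.toFinset, wd i (p.parts.toFinsupp i) =
      du 1 (p.parts.count i • (if Odd i then (i : ℤ) else -(i : ℤ))) := by
    intro i hi
    rw [Multiset.toFinsupp_apply]
    have hc : p.parts.count i = 1 :=
      Multiset.count_eq_one_of_mem hp (Multiset.mem_toFinset.1 hi)
    unfold wd
    rw [hc, if_pos rfl, one_smul]
  rw [Finset.prod_congr rfl h1, prod_du]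
  congr 1
  unfold w
  rw [Finset.sum_multiset_map_count]

theorem prod_wd_zero {m : ℕ} (p : Nat.Partition m) (hp : ¬ p.parts.Nodup) :
    p.parts.toFinsupp.prod wd = 0 := by
  classical
  rw [Multiset.nodup_iff_count_le_one] at hp
  push Not at hp
  obtain ⟨i, hc⟩ := hp
  unfold Finsupp.prod
  rw [Multiset.toFinsupp_support]
  refine Finset.prod_eq_zero (i := i) ?_ ?_
  · rw [Multiset.mem_toFinset]
    exact Multiset.one_le_count_iff_mem.1 (by omega)
  · rw [Multiset.toFinsupp_apply]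
    unfold wd
    rw [if_neg (by omega)]

theorem DSOME_eq (m : ℕ) : DSOME m = coeff m gD := by
  classical
  rw [gD, coeff_mk, Nat.Partition.coeff_genFun, TrivSqZeroExt.snd_sum, DSOME,
    Nat.Partition.distincts, Finset.sum_filter]
  refine Finset.sum_congr rfl fun p _ => ?_
  split_ifs with h
  · rw [prod_wd p h, du_snd]
  · rw [prod_wd_zero p h]; rfl

end Q266.DS.EC

namespace Pool.Agent.Results.MP_496c03_nt.Dsome

/-- The congruences modulo 8 and 16, for all `n` (both forms of the question), and more generally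
for all odd `m` such that `5` divides `24m+1` exactly once. -/
theorem result :
    (∀ n : ℕ, (8 : ℤ) ∣ DSOME (50 * n + 21)) ∧
    (∀ n : ℕ, (16 : ℤ) ∣ DSOME (100 * n + 71)) ∧
    (∀ n : ℕ, ∀ r ∈ ({21, 71, 121, 171, 221} : Finset ℕ), (8 : ℤ) ∣ DSOME (250 * n + r)) ∧
    (∀ n : ℕ, ∀ s ∈ ({71, 171, 271, 371, 471} : Finset ℕ), (16 : ℤ) ∣ DSOME (500 * n + s)) ∧
    (∀ m : ℕ, Odd m → 5 ∣ 24 * m + 1 → ¬ 25 ∣ 24 * m + 1 → (8 : ℤ) ∣ DSOME m) ∧
    (∀ m : ℕ, m % 4 = 3 → 5 ∣ 24 * m + 1 → ¬ 25 ∣ 24 * m + 1 → (16 : ℤ) ∣ DSOME m) := by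
  have h8 : ∀ m : ℕ, m % 2 = 1 → 5 ∣ 24 * m + 1 → ¬ 25 ∣ 24 * m + 1 → (8 : ℤ) ∣ DSOME m := by
    intro m h1 h2 h3
    rw [Q266.DS.EC.DSOME_eq]
    exact Q266.DS.gD_eight h1 h2 h3
  have h16 : ∀ m : ℕ, m % 4 = 3 → 5 ∣ 24 * m + 1 → ¬ 25 ∣ 24 * m + 1 → (16 : ℤ) ∣ DSOME m := by
    intro m h1 h2 h3
    rw [Q266.DS.EC.DSOME_eq]
    exact Q266.DS.gD_sixteen h1 h2 h3
  refine ⟨fun n => h8 _ (by omega) (by omega) (by omega),
    fun n => h16 _ (by omega) (by omega) (by omega), fun n r hr => ?_, fun n s hs => ?_,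
    fun m hm => h8 m (Nat.odd_iff.1 hm), h16⟩
  · simp only [Finset.mem_insert, Finset.mem_singleton] at hr
    exact h8 _ (by omega) (by omega) (by omega)
  · simp only [Finset.mem_insert, Finset.mem_singleton] at hs
    exact h16 _ (by omega) (by omega) (by omega)

end Pool.Agent.Results.MP_496c03_nt.Dsome
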